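import Pool.Agent.K4W.StmtsV

/-!
# Squad K4W, row GRD: the grid (author helper23)
-/

set_option autoImplicit false

namespace Pool.Agent.K4W.H23

open Pool.Agent.K4W

theorem grid_aux (x : ℝ) (n : ℕ) (hn : 0 < n) (h0 : 0 ≤ x) :
    |x - (⌊x * (n : ℝ)⌋₊ : ℝ) / (n : ℝ)| ≤ 1 / (n : ℝ) := by
  have hn' : (0 : ℝ) < (n : ℝ) := by exact_mod_cast hn
  have h1 := Nat.floor_le (mul_nonneg h0 hn'.le)
  have h2 := Nat.lt_floor_add_one (x * (n : ℝ))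
  have h3 : (⌊x * (n : ℝ)⌋₊ : ℝ) / (n : ℝ) ≤ x := by
    rw [div_le_iff₀ hn']
    exact h1
  have h4 : x ≤ ((⌊x * (n : ℝ)⌋₊ : ℝ) + 1) / (n : ℝ) := by
    rw [le_div_iff₀ hn']
    exact h2.le
  have h5 : ((⌊x * (n : ℝ)⌋₊ : ℝ) + 1) / (n : ℝ) = (⌊x * (n : ℝ)⌋₊ : ℝ) / (n : ℝ) + 1 / (n : ℝ) := by
    ring
  have h6 : (0 : ℝ) < 1 / (n : ℝ) := by positivity
  rw [abs_le]
  constructor <;> linarith

theorem fl_lt (x : ℝ) (n : ℕ) (hn : 0 < n) (h0 : 0 ≤ x) (h1 : x < 1) :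
    ⌊x * (n : ℝ)⌋₊ < n := by
  have hn' : (0 : ℝ) < (n : ℝ) := by exact_mod_cast hn
  rw [Nat.floor_lt (mul_nonneg h0 hn'.le)]
  nlinarith

/-- **GRD** -/
theorem grd (hPsl : PslStmt) : GrdStmt := by
  classical
  obtain ⟨p1, p2, p3⟩ := hPsl
  refine ⟨1000, fun Z hZ => ?_⟩
  have hZp : 0 < Z := by omega
  obtain ⟨u, hu⟩ : ∃ u : ℕ, u = Z ^ 1000 := ⟨_, rfl⟩
  obtain ⟨v, hv⟩ : ∃ v : ℕ, v = Z ^ 82 := ⟨_, rfl⟩
  have hup : 0 < u := by rw [hu]; exact Nat.pow_pos hZp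
  have hvp : 0 < v := by rw [hv]; exact Nat.pow_pos hZp
  have hur : (0 : ℝ) < (u : ℝ) := by exact_mod_cast hup
  have hvr : (0 : ℝ) < (v : ℝ) := by exact_mod_cast hvp
  have hZr : (1000 : ℝ) ≤ (Z : ℝ) := by exact_mod_cast hZ
  have huz : (u : ℝ) = (Z : ℝ) ^ 1000 := by rw [hu]; push_cast; rfl
  have hvz : (v : ℝ) = (Z : ℝ) ^ 82 := by rw [hv]; push_cast; rfl
  have hA : 0 < u ^ 3 * v := by positivity
  have hB : 0 < u * v := by positivity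
  have hD : 0 < u ^ 2 * v := by positivity
  refine ⟨((Finset.range (u ^ 3 * v) ×ˢ Finset.range (u * v)) ×ˢ Finset.range (Z ^ 85)).image
    (fun p => ps ((p.1.1 : ℝ) / ((u ^ 3 * v : ℕ) : ℝ)) ((p.1.2 : ℝ) / ((u * v : ℕ) : ℝ))
      ((p.2 : ℝ) / ((u ^ 2 * v : ℕ) : ℝ))), ?_, ?_, ?_⟩
  · refine le_trans Finset.card_image_le ?_
    rw [Finset.card_product, Finset.card_product, Finset.card_range, Finset.card_range,
      Finset.card_range]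
    have h1 : u ^ 3 * v * (u * v) * Z ^ 85 = Z ^ 4249 := by
      rw [hu, hv]
      ring
    rw [h1]
    exact Nat.pow_le_pow_right hZp (by omega)
  · intro ψ hψ μ
    obtain ⟨p, _, rfl⟩ := Finset.mem_image.1 hψ
    exact p1 _ _ _ _ (by positivity)
  · intro α β l hl hl2
    have hfa := Int.fract_nonneg α
    have hfb := Int.fract_nonneg β
    have hfa1 := Int.fract_lt_one α
    have hfb1 := Int.fract_lt_one β
    have ei := grid_aux (Int.fract α) (u ^ 3 * v) hA hfa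
    have ej := grid_aux (Int.fract β) (u * v) hB hfb
    have ek := grid_aux l (u ^ 2 * v) hD hl
    have li := fl_lt (Int.fract α) (u ^ 3 * v) hA hfa hfa1
    have lj := fl_lt (Int.fract β) (u * v) hB hfb hfb1
    have lk : ⌊l * ((u ^ 2 * v : ℕ) : ℝ)⌋₊ < Z ^ 85 := by
      rw [Nat.floor_lt (by positivity)]
      push_cast
      have h1 : l * ((u : ℝ) ^ 2 * (v : ℝ)) = l * ((Z : ℝ) ^ 1000) ^ 2 * (Z : ℝ) ^ 82 := by
        rw [huz, hvz]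
        ring
      rw [h1]
      have h2 : l * ((Z : ℝ) ^ 1000) ^ 2 * (Z : ℝ) ^ 82 ≤ 100 * (Z : ℝ) ^ 2 * (Z : ℝ) ^ 82 :=
        mul_le_mul_of_nonneg_right hl2 (by positivity)
      have h3 : 100 * (Z : ℝ) ^ 2 * (Z : ℝ) ^ 82 = 100 * (Z : ℝ) ^ 84 := by ring
      have h4 : (Z : ℝ) ^ 85 = (Z : ℝ) * (Z : ℝ) ^ 84 := by ring
      have h5 : (0 : ℝ) < (Z : ℝ) ^ 84 := by positivity
      rw [h4]
      nlinarith
    refine ⟨_, Finset.mem_image.2 ⟨((⌊Int.fract α * ((u ^ 3 * v : ℕ) : ℝ)⌋₊,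
      ⌊Int.fract β * ((u * v : ℕ) : ℝ)⌋₊), ⌊l * ((u ^ 2 * v : ℕ) : ℝ)⌋₊), ?_, rfl⟩, ?_⟩
    · simp only [Finset.mem_product, Finset.mem_range]
      exact ⟨⟨li, lj⟩, lk⟩
    intro μ hμ
    obtain ⟨i, hi⟩ : ∃ i : ℕ, i = ⌊Int.fract α * ((u ^ 3 * v : ℕ) : ℝ)⌋₊ := ⟨_, rfl⟩
    obtain ⟨j, hj⟩ : ∃ j : ℕ, j = ⌊Int.fract β * ((u * v : ℕ) : ℝ)⌋₊ := ⟨_, rfl⟩
    obtain ⟨k, hk⟩ : ∃ k : ℕ, k = ⌊l * ((u ^ 2 * v : ℕ) : ℝ)⌋₊ := ⟨_, rfl⟩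
    rw [← hi] at ei
    rw [← hj] at ej
    rw [← hk] at ek
    simp only [← hi, ← hj, ← hk]
    have hper := p2 α β l ⌊α⌋ ⌊β⌋ μ
    have hfα : α - (⌊α⌋ : ℝ) = Int.fract α := rfl
    have hfβ : β - (⌊β⌋ : ℝ) = Int.fract β := rfl
    rw [hfα, hfβ] at hper
    rw [← hper]
    have herr := p3 (Int.fract α) (Int.fract β) l ((i : ℝ) / ((u ^ 3 * v : ℕ) : ℝ))
      ((j : ℝ) / ((u * v : ℕ) : ℝ)) ((k : ℝ) / ((u ^ 2 * v : ℕ) : ℝ)) μ hl (by positivity)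
    have hμr : (μ : ℝ) ≤ 2 * (u : ℝ) := by
      rw [hu]
      exact_mod_cast hμ
    have hμ0 : (0 : ℝ) ≤ (μ : ℝ) := Nat.cast_nonneg μ
    have b1 : |Int.fract α - (i : ℝ) / ((u ^ 3 * v : ℕ) : ℝ)| * (μ : ℝ) ^ 3 ≤ 8 / (v : ℝ) := by
      have h1 : (μ : ℝ) ^ 3 ≤ (2 * (u : ℝ)) ^ 3 := pow_le_pow_left₀ hμ0 hμr 3
      calc |Int.fract α - (i : ℝ) / ((u ^ 3 * v : ℕ) : ℝ)| * (μ : ℝ) ^ 3
          ≤ 1 / ((u ^ 3 * v : ℕ) : ℝ) * (2 * (u : ℝ)) ^ 3 :=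
            mul_le_mul ei h1 (by positivity) (by positivity)
        _ = 8 / (v : ℝ) := by
            push_cast
            field_simp
            ring
    have b2 : |Int.fract β - (j : ℝ) / ((u * v : ℕ) : ℝ)| * (μ : ℝ) ≤ 2 / (v : ℝ) := by
      calc |Int.fract β - (j : ℝ) / ((u * v : ℕ) : ℝ)| * (μ : ℝ)
          ≤ 1 / ((u * v : ℕ) : ℝ) * (2 * (u : ℝ)) :=
            mul_le_mul ej hμr (by positivity) (by positivity)
        _ = 2 / (v : ℝ) := by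
            push_cast
            field_simp
    have b3 : |l - (k : ℝ) / ((u ^ 2 * v : ℕ) : ℝ)| * (μ : ℝ) ^ 2 ≤ 4 / (v : ℝ) := by
      have h1 : (μ : ℝ) ^ 2 ≤ (2 * (u : ℝ)) ^ 2 := pow_le_pow_left₀ hμ0 hμr 2
      calc |l - (k : ℝ) / ((u ^ 2 * v : ℕ) : ℝ)| * (μ : ℝ) ^ 2
          ≤ 1 / ((u ^ 2 * v : ℕ) : ℝ) * (2 * (u : ℝ)) ^ 2 :=
            mul_le_mul ek h1 (by positivity) (by positivity)
        _ = 4 / (v : ℝ) := by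
            push_cast
            field_simp
            ring
    have hpi := Real.pi_lt_four
    have hpi0 := Real.pi_pos
    have hfin : 2 * Real.pi * (|Int.fract α - (i : ℝ) / ((u ^ 3 * v : ℕ) : ℝ)| * (μ : ℝ) ^ 3 +
        |Int.fract β - (j : ℝ) / ((u * v : ℕ) : ℝ)| * (μ : ℝ)) +
        |l - (k : ℝ) / ((u ^ 2 * v : ℕ) : ℝ)| * (μ : ℝ) ^ 2 ≤ 100 / (v : ℝ) := by
      have h1 : 2 * Real.pi * (|Int.fract α - (i : ℝ) / ((u ^ 3 * v : ℕ) : ℝ)| * (μ : ℝ) ^ 3 +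
          |Int.fract β - (j : ℝ) / ((u * v : ℕ) : ℝ)| * (μ : ℝ)) ≤
          2 * Real.pi * (8 / (v : ℝ) + 2 / (v : ℝ)) :=
        mul_le_mul_of_nonneg_left (add_le_add b1 b2) (by positivity)
      have h2 : 2 * Real.pi * (8 / (v : ℝ) + 2 / (v : ℝ)) ≤ 2 * 4 * (8 / (v : ℝ) + 2 / (v : ℝ)) := by
        have h3 : (0 : ℝ) ≤ 8 / (v : ℝ) + 2 / (v : ℝ) := by positivity
        nlinarith
      have h4 : 2 * 4 * (8 / (v : ℝ) + 2 / (v : ℝ)) + 4 / (v : ℝ) ≤ 100 / (v : ℝ) := by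
        have h5 : 2 * 4 * (8 / (v : ℝ) + 2 / (v : ℝ)) + 4 / (v : ℝ) = 84 / (v : ℝ) := by ring
        rw [h5]
        exact div_le_div_of_nonneg_right (by norm_num) hvr.le
      linarith
    have hz81 : (0 : ℝ) < (Z : ℝ) ^ 81 := by positivity
    calc ‖ps (Int.fract α) (Int.fract β) l μ - ps ((i : ℝ) / ((u ^ 3 * v : ℕ) : ℝ))
          ((j : ℝ) / ((u * v : ℕ) : ℝ)) ((k : ℝ) / ((u ^ 2 * v : ℕ) : ℝ)) μ‖ * (Z : ℝ) ^ 81
        ≤ 100 / (v : ℝ) * (Z : ℝ) ^ 81 :=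
          mul_le_mul_of_nonneg_right (herr.trans hfin) hz81.le
      _ = 100 / (Z : ℝ) := by
          rw [hvz]
          have h1 : (Z : ℝ) ^ 82 = (Z : ℝ) * (Z : ℝ) ^ 81 := by ring
          rw [h1]
          field_simp
      _ ≤ 1 := by
          rw [div_le_one (by positivity)]
          linarith

end Pool.Agent.K4W.H23
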