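import Pool.Agent.K4W.StmtsF

/-!
# Squad K4W, row YSM: the sum over `H` of the maximum over the grid (author helper23)
-/

set_option autoImplicit false

namespace Pool.Agent.K4W.H23

open Pool.Agent.K4W

theorem card_Hs (X : ℕ) : (Hs X).card = 2 * X := by
  unfold Hs
  rw [Finset.filter_ne', Finset.card_erase_of_mem, Int.card_Icc]
  · omega
  · rw [Finset.mem_Icc]
    omega

/-- **YSM** -/
theorem ysm (hV1 : V1Statement) (hExc : ExcStmt) : YsmStmt := by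
  classical
  obtain ⟨Z1, h1⟩ := hV1
  obtain ⟨Z2, h2⟩ := hExc
  refine ⟨max (max Z1 Z2) 4, fun Z hZ N Q a t S Ψ hB hS hΨ hΨc => ?_⟩
  have hZ1 : Z1 ≤ Z := le_trans (le_trans (le_max_left _ _) (le_max_left _ _)) hZ
  have hZ2 : Z2 ≤ Z := le_trans (le_trans (le_max_right _ _) (le_max_left _ _)) hZ
  have hZ4 : 4 ≤ Z := le_trans (le_max_right _ _) hZ
  have hz4 : (4 : ℝ) ≤ (Z : ℝ) := by exact_mod_cast hZ4
  have hz0 : (0 : ℝ) < (Z : ℝ) := by linarith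
  obtain ⟨X, hX⟩ : ∃ X : ℕ, X = Xz Z := ⟨_, rfl⟩
  have hexc := h2 Z hZ2 N Q a t S Ψ hB hS (fun ψ hψ μ _ => hΨ ψ hψ μ) hΨc
  have hv1 : ∀ μ ∈ S, ∑ H ∈ Hs X, ‖th N (48 * t * (μ : ℝ) * (H : ℝ))‖ ^ 2 ≤
      (N : ℝ) * (X : ℝ) * (Z : ℝ) ^ 3 := by
    intro μ hμ
    have h3 := hS.2 μ hμ
    rw [hX]
    exact h1 Z hZ1 N Q μ a t hB h3.2.1 h3.2.2
  rw [← hX]
  rw [← hX] at hexc
  obtain ⟨s, hs⟩ : ∃ s : ℝ, s = (S.card : ℝ) := ⟨_, rfl⟩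
  have hs0 : 0 ≤ s := by rw [hs]; exact Nat.cast_nonneg _
  obtain ⟨x, hx⟩ : ∃ x : ℝ, x = (X : ℝ) := ⟨_, rfl⟩
  have hx0 : 0 ≤ x := by rw [hx]; exact Nat.cast_nonneg _
  rw [← hs] at hexc ⊢
  rw [← hx] at hexc ⊢
  rw [← hx] at hv1
  let T : ℤ → ℝ := fun H => ∑ μ ∈ S, ‖th N (48 * t * (μ : ℝ) * (H : ℝ))‖
  have hT0 : ∀ H, 0 ≤ T H := fun H => Finset.sum_nonneg fun _ _ => norm_nonneg _
  have hψT : ∀ H : ℤ, ∀ ψ ∈ Ψ, ‖∑ μ ∈ S, ψ μ * th N (48 * t * (μ : ℝ) * (H : ℝ))‖ ≤ T H := by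
    intro H ψ hψ
    refine le_trans (norm_sum_le _ _) (Finset.sum_le_sum fun μ _ => ?_)
    rw [norm_mul]
    calc ‖ψ μ‖ * ‖th N (48 * t * (μ : ℝ) * (H : ℝ))‖
        ≤ 1 * ‖th N (48 * t * (μ : ℝ) * (H : ℝ))‖ :=
          mul_le_mul_of_nonneg_right (hΨ ψ hψ μ) (norm_nonneg _)
      _ = _ := one_mul _
  -- the second moment of `T`
  have hM : ∑ H ∈ Hs X, T H ^ 2 ≤ s ^ 2 * (2 * (Z : ℝ) ^ 64003 * x) := by
    have e1 : ∀ H ∈ Hs X, T H ^ 2 ≤ s * ∑ μ ∈ S, ‖th N (48 * t * (μ : ℝ) * (H : ℝ))‖ ^ 2 := by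
      intro H _
      rw [hs]
      exact sq_sum_le_card_mul_sum_sq
    have e2 : ∑ H ∈ Hs X, T H ^ 2 ≤ s * ∑ μ ∈ S, ∑ H ∈ Hs X,
        ‖th N (48 * t * (μ : ℝ) * (H : ℝ))‖ ^ 2 := by
      refine le_trans (Finset.sum_le_sum e1) ?_
      rw [← Finset.mul_sum, Finset.sum_comm]
    have e3 : ∑ μ ∈ S, ∑ H ∈ Hs X, ‖th N (48 * t * (μ : ℝ) * (H : ℝ))‖ ^ 2 ≤
        s * ((N : ℝ) * x * (Z : ℝ) ^ 3) := by
      refine le_trans (Finset.sum_le_sum hv1) ?_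
      rw [Finset.sum_const, nsmul_eq_mul, ← hs]
    have e4 : (N : ℝ) ≤ 2 * (Z : ℝ) ^ 64000 := by exact_mod_cast hB.2.1
    have e5 : (N : ℝ) * x * (Z : ℝ) ^ 3 ≤ 2 * (Z : ℝ) ^ 64003 * x := by
      have e6 : 2 * (Z : ℝ) ^ 64003 * x = (2 * (Z : ℝ) ^ 64000) * x * (Z : ℝ) ^ 3 := by ring
      rw [e6]
      exact mul_le_mul_of_nonneg_right (mul_le_mul_of_nonneg_right e4 hx0) (by positivity)
    calc ∑ H ∈ Hs X, T H ^ 2 ≤ s * (s * (2 * (Z : ℝ) ^ 64003 * x)) :=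
          le_trans e2 (mul_le_mul_of_nonneg_left
            (le_trans e3 (mul_le_mul_of_nonneg_left e5 hs0)) hs0)
      _ = s ^ 2 * (2 * (Z : ℝ) ^ 64003 * x) := by ring
  -- the full sum
  have hfull : ∑ H ∈ Hs X, T H ≤ 2 * s * x * (Z : ℝ) ^ 32002 := by
    have e1 : (∑ H ∈ Hs X, T H) ^ 2 ≤ (2 * s * x * (Z : ℝ) ^ 32002) ^ 2 := by
      have e2 : (∑ H ∈ Hs X, T H) ^ 2 ≤ ((Hs X).card : ℝ) * ∑ H ∈ Hs X, T H ^ 2 :=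
        sq_sum_le_card_mul_sum_sq
      rw [card_Hs] at e2
      push_cast at e2
      rw [← hx] at e2
      have e3 : 2 * x * ∑ H ∈ Hs X, T H ^ 2 ≤ 2 * x * (s ^ 2 * (2 * (Z : ℝ) ^ 64003 * x)) :=
        mul_le_mul_of_nonneg_left hM (by positivity)
      have e4 : (2 * s * x * (Z : ℝ) ^ 32002) ^ 2 =
          2 * x * (s ^ 2 * (2 * (Z : ℝ) ^ 64003 * x)) * (Z : ℝ) := by ring
      have e5 : (0 : ℝ) ≤ 2 * x * (s ^ 2 * (2 * (Z : ℝ) ^ 64003 * x)) := by positivity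
      rw [e4]
      nlinarith
    exact le_of_sq_le_sq e1 (by positivity)
  -- the exceptional set
  let E : Finset ℤ := (Hs X).filter (fun H : ℤ => ∃ ψ ∈ Ψ, s * (Z : ℝ) ^ 31920 <
    ‖∑ μ ∈ S, ψ μ * th N (48 * t * (μ : ℝ) * (H : ℝ))‖)
  have hE : (E.card : ℝ) * (Z : ℝ) ^ 164 ≤ x := hexc
  have hEs : E ⊆ Hs X := Finset.filter_subset _ _
  have hexcs : ∑ H ∈ E, T H ≤ 2 * s * x * (Z : ℝ) ^ 31920 := by
    have e1 : (∑ H ∈ E, T H) ^ 2 * (Z : ℝ) ^ 164 ≤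
        (2 * s * x * (Z : ℝ) ^ 31920) ^ 2 * (Z : ℝ) ^ 164 := by
      have e2 : (∑ H ∈ E, T H) ^ 2 ≤ (E.card : ℝ) * ∑ H ∈ E, T H ^ 2 :=
        sq_sum_le_card_mul_sum_sq
      have e3 : ∑ H ∈ E, T H ^ 2 ≤ ∑ H ∈ Hs X, T H ^ 2 :=
        Finset.sum_le_sum_of_subset_of_nonneg hEs fun _ _ _ => sq_nonneg _
      have e4 : (E.card : ℝ) * ∑ H ∈ E, T H ^ 2 ≤
          (E.card : ℝ) * (s ^ 2 * (2 * (Z : ℝ) ^ 64003 * x)) :=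
        mul_le_mul_of_nonneg_left (e3.trans hM) (Nat.cast_nonneg _)
      have e5 : (∑ H ∈ E, T H) ^ 2 * (Z : ℝ) ^ 164 ≤
          (E.card : ℝ) * (s ^ 2 * (2 * (Z : ℝ) ^ 64003 * x)) * (Z : ℝ) ^ 164 :=
        mul_le_mul_of_nonneg_right (e2.trans e4) (by positivity)
      have e6 : (E.card : ℝ) * (s ^ 2 * (2 * (Z : ℝ) ^ 64003 * x)) * (Z : ℝ) ^ 164 =
          ((E.card : ℝ) * (Z : ℝ) ^ 164) * (s ^ 2 * (2 * (Z : ℝ) ^ 64003 * x)) := by ring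
      have e7 : ((E.card : ℝ) * (Z : ℝ) ^ 164) * (s ^ 2 * (2 * (Z : ℝ) ^ 64003 * x)) ≤
          x * (s ^ 2 * (2 * (Z : ℝ) ^ 64003 * x)) :=
        mul_le_mul_of_nonneg_right hE (by positivity)
      have e8 : (2 * s * x * (Z : ℝ) ^ 31920) ^ 2 * (Z : ℝ) ^ 164 =
          (x * (s ^ 2 * (2 * (Z : ℝ) ^ 64003 * x))) * (2 * (Z : ℝ)) := by ring
      have e9 : (0 : ℝ) ≤ x * (s ^ 2 * (2 * (Z : ℝ) ^ 64003 * x)) := by positivity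
      rw [e8]
      rw [e6] at e5
      nlinarith
    have e2 : (∑ H ∈ E, T H) ^ 2 ≤ (2 * s * x * (Z : ℝ) ^ 31920) ^ 2 :=
      le_of_mul_le_mul_right e1 (by positivity)
    exact le_of_sq_le_sq e2
      (mul_nonneg (mul_nonneg (mul_nonneg (by norm_num) hs0) hx0) (pow_nonneg hz0.le _))
  refine ⟨fun H => (if ∃ ψ ∈ Ψ, s * (Z : ℝ) ^ 31920 <
      ‖∑ μ ∈ S, ψ μ * th N (48 * t * (μ : ℝ) * (H : ℝ))‖ then T H else s * (Z : ℝ) ^ 31920) +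
      (1 / (Z : ℝ) ^ 81) * T H, ?_, ?_, ?_⟩
  · intro H
    have e1 : (0 : ℝ) ≤ (1 / (Z : ℝ) ^ 81) * T H := mul_nonneg (by positivity) (hT0 H)
    have e2 : (0 : ℝ) ≤ s * (Z : ℝ) ^ 31920 := by positivity
    show (0 : ℝ) ≤ (if _ then _ else _) + _
    split_ifs
    · linarith [hT0 H]
    · linarith
  · intro H ψ hψ
    have e1 : ‖∑ μ ∈ S, ψ μ * th N (48 * t * (μ : ℝ) * (H : ℝ))‖ ≤
        (if ∃ ψ ∈ Ψ, s * (Z : ℝ) ^ 31920 <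
          ‖∑ μ ∈ S, ψ μ * th N (48 * t * (μ : ℝ) * (H : ℝ))‖ then T H
        else s * (Z : ℝ) ^ 31920) := by
      by_cases hc : ∃ ψ ∈ Ψ, s * (Z : ℝ) ^ 31920 <
          ‖∑ μ ∈ S, ψ μ * th N (48 * t * (μ : ℝ) * (H : ℝ))‖
      · rw [if_pos hc]
        exact hψT H ψ hψ
      · rw [if_neg hc]
        push Not at hc
        exact hc ψ hψ
    exact add_le_add e1 le_rfl
  · rw [Finset.sum_add_distrib, Finset.sum_ite]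
    have e1 : ∑ H ∈ (Hs X).filter (fun H : ℤ => ∃ ψ ∈ Ψ, s * (Z : ℝ) ^ 31920 <
        ‖∑ μ ∈ S, ψ μ * th N (48 * t * (μ : ℝ) * (H : ℝ))‖), T H ≤
        2 * s * x * (Z : ℝ) ^ 31920 := hexcs
    have e2 : ∑ H ∈ (Hs X).filter (fun H : ℤ => ¬ ∃ ψ ∈ Ψ, s * (Z : ℝ) ^ 31920 <
        ‖∑ μ ∈ S, ψ μ * th N (48 * t * (μ : ℝ) * (H : ℝ))‖), s * (Z : ℝ) ^ 31920 ≤
        2 * s * x * (Z : ℝ) ^ 31920 := by
      rw [Finset.sum_const, nsmul_eq_mul]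
      have e3 : ((((Hs X).filter (fun H : ℤ => ¬ ∃ ψ ∈ Ψ, s * (Z : ℝ) ^ 31920 <
          ‖∑ μ ∈ S, ψ μ * th N (48 * t * (μ : ℝ) * (H : ℝ))‖)).card : ℕ) : ℝ) ≤ 2 * x := by
        have e4 := Finset.card_filter_le (Hs X) (fun H : ℤ => ¬ ∃ ψ ∈ Ψ, s * (Z : ℝ) ^ 31920 <
          ‖∑ μ ∈ S, ψ μ * th N (48 * t * (μ : ℝ) * (H : ℝ))‖)
        rw [card_Hs] at e4
        rw [hx]
        exact_mod_cast e4
      calc _ ≤ 2 * x * (s * (Z : ℝ) ^ 31920) :=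
            mul_le_mul_of_nonneg_right e3 (by positivity)
        _ = _ := by ring
    have e3 : (1 / (Z : ℝ) ^ 81) * ∑ H ∈ Hs X, T H ≤ 2 * s * x * (Z : ℝ) ^ 31921 := by
      calc (1 / (Z : ℝ) ^ 81) * ∑ H ∈ Hs X, T H
          ≤ (1 / (Z : ℝ) ^ 81) * (2 * s * x * (Z : ℝ) ^ 32002) :=
            mul_le_mul_of_nonneg_left hfull (by positivity)
        _ = 2 * s * x * (Z : ℝ) ^ 31921 := by
            have e4 : (Z : ℝ) ^ 32002 = (Z : ℝ) ^ 81 * (Z : ℝ) ^ 31921 := by ring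
            rw [e4]
            have e5 : (Z : ℝ) ^ 81 ≠ 0 := by positivity
            obtain ⟨p, hp⟩ : ∃ p : ℝ, p = (Z : ℝ) ^ 81 := ⟨_, rfl⟩
            obtain ⟨q, hq⟩ : ∃ q : ℝ, q = (Z : ℝ) ^ 31921 := ⟨_, rfl⟩
            rw [← hp] at e5 ⊢
            rw [← hq]
            field_simp
    obtain ⟨q, hq⟩ : ∃ q : ℝ, q = (Z : ℝ) ^ 31920 := ⟨_, rfl⟩
    have hq0 : 0 ≤ q := by rw [hq]; positivity
    have e4 : (Z : ℝ) ^ 31921 = q * (Z : ℝ) := by rw [hq]; ring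
    have e5 : (Z : ℝ) ^ 31922 = q * (Z : ℝ) ^ 2 := by rw [hq]; ring
    rw [e5]
    rw [e4] at e3
    have e1' := e1.trans_eq (show 2 * s * x * (Z : ℝ) ^ 31920 = 2 * s * x * q by rw [hq])
    have e2' := e2.trans_eq (show 2 * s * x * (Z : ℝ) ^ 31920 = 2 * s * x * q by rw [hq])
    have e6 : 2 * s * x * q + 2 * s * x * q + 2 * s * x * (q * (Z : ℝ)) ≤
        s * x * (q * (Z : ℝ) ^ 2) := by
      have e7 : (0 : ℝ) ≤ s * x * q := by positivity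
      have e8 : 4 + 2 * (Z : ℝ) ≤ (Z : ℝ) ^ 2 := by nlinarith
      have e9 := mul_le_mul_of_nonneg_left e8 e7
      nlinarith
    rw [Finset.mul_sum] at e3
    exact le_trans (add_le_add (add_le_add e1' e2') e3) e6

end Pool.Agent.K4W.H23
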